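import Pool.Agent.H91.SV.Targets

/-! # Fixed families: from semidefinite programs to mixed programs (row MONOM) -/

namespace Pool.Agent.H36.SV

open Finset Matrix Pool.Agent.H91.SV
open Pool.Agent.H1.LP (Clause viol)
open Pool.Agent.H49.SDP (SRelax HardS SRefuted)

open Classical in
theorem pf_MONOM (hT : ∀ (n : ℕ) (P : MRelax n), ∃ Q : SRelax n, Q.cell = P.cell ∧
    Q.ord = P.size + P.ord ∧ ∀ (m : ℕ) (phi : Fin m → Clause n) (de : ℝ),
      P.Refutes phi de → Q.Refutes phi de) : S_MONOM := by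
  intro k ε c hH
  obtain ⟨K, γ, hγ, n₀, hn₀⟩ := hH
  refine ⟨K, γ, hγ, n₀, fun n hn => ?_⟩
  obtain ⟨Y, m, phi, hY, h1, h2⟩ := hn₀ n hn
  refine ⟨Y, m, phi, hY, h1, fun M P hP => ?_⟩
  choose Q hQc hQo hQr using fun j => hT n (P j)
  have h3 : ∑ j, (((Q j).ord : ℝ) + 1) ^ 2 ≤ (2 : ℝ) ^ (c * n) := by
    have e1 : ∀ j, ((Q j).ord : ℝ) + 1 = ((P j).size : ℝ) + (P j).ord + 1 := by
      intro j
      rw [hQo j]
      push_cast
      ring
    simp only [e1]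
    have h4 : ∑ j, (((P j).size : ℝ) + (P j).ord + 1) ^ 2 ≤
        (∑ j, (((P j).size : ℝ) + (P j).ord + 1)) ^ 2 :=
      Finset.sum_sq_le_sq_sum_of_nonneg fun j _ => by positivity
    have h5 : (∑ j, (((P j).size : ℝ) + (P j).ord + 1)) ^ 2 ≤ ((2 : ℝ) ^ (c / 2 * n)) ^ 2 := by
      gcongr
    have h6 : ((2 : ℝ) ^ (c / 2 * n)) ^ 2 = (2 : ℝ) ^ (c * n) := by
      rw [← Real.rpow_natCast, ← Real.rpow_mul (by norm_num)]
      congr 1
      push_cast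
      ring
    linarith
  refine le_trans ?_ (h2 M Q h3)
  have h7 : univ.filter (fun a => MRefutedBy P (phi a) ((2 : ℝ) ^ (-(γ * n)))
      ((2 : ℝ) ^ (c / 2 * n)) ((2 : ℝ) ^ (c / 2 * n))) ⊆
      univ.filter (fun a => SRefuted Q (phi a) ((2 : ℝ) ^ (-(γ * n)))) := by
    intro a ha
    rw [mem_filter] at ha ⊢
    refine ⟨ha.1, ?_⟩
    obtain ⟨J, hd, hc, hr, -, -⟩ := ha.2
    refine ⟨J, fun j hj j' hj' hjj => ?_, fun x => ?_, fun j hj => hQr j _ _ _ (hr j hj)⟩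
    · rw [hQc, hQc]
      exact hd j hj j' hj' hjj
    · obtain ⟨j, hj, hx⟩ := hc x
      exact ⟨j, hj, by rw [hQc]; exact hx⟩
  exact_mod_cast card_le_card h7

end Pool.Agent.H36.SV
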