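import Pool.Agent.H91.SV.Targets
import Pool.Agent.H33.AV.PARM

/-! # Linear and semidefinite programs: choice of the parameters (row PARMM) -/

namespace Pool.Agent.H36.SV

open Finset Matrix Pool.Agent.H91.SV
open Pool.Agent.H1.LP (Clause viol Loc Sys Agree supp ip kk)

/-- the exponents of the first alternative -/
lemma expoM (E B b n ε₁ C e0 j h1 : ℝ) (hE : 16 ≤ E) (hεE : 33 ≤ ε₁ * E) (_hε0 : 0 < ε₁)
    (hε1 : ε₁ ≤ 1 / 4) (hB : 2 ≤ B) (hbB : b ≤ B) (hb : b = (4 * E + 1) * (E + 1))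
    (hn0 : 0 ≤ n) (hn : n ≤ b * (B + 1)) (he0 : 0 < e0) (hCe : (2 * |C| + 2) * e0 ≤ ε₁ / 4)
    (hj0 : 0 ≤ j) (hj : j ≤ 4 * E) (hh1 : (E - 8) * B ≤ 2 * E * h1) (hh2 : h1 ≤ B) :
    3 * B + (2 * B * (4 * E + 1) + 2 * B + 1) + (8 * E + 4) * B * e0 +
        (2 * C + ε₁ / 8) * n * e0 + (1 + (1 / 2 - ε₁) * n) <
      -(2 * (ε₁ / 8 * n)) - j * h1 + 4 * E * (E - 1) * h1 * (1 - e0) := by
  have hC0 : 0 ≤ |C| := abs_nonneg C
  have hCC : C ≤ |C| := le_abs_self C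
  have he1 : e0 ≤ ε₁ / 8 := by nlinarith
  have he2 : e0 ≤ 1 / 32 := by linarith
  have hB0 : 0 ≤ B := by linarith
  -- the coefficient of `n`
  have a1 : (2 * C + ε₁ / 8) * n * e0 ≤ ε₁ / 4 * n := by
    have h1' : (2 * C + ε₁ / 8) * e0 ≤ (2 * |C| + 2) * e0 :=
      mul_le_mul_of_nonneg_right (by linarith) he0.le
    have h2 : (2 * C + ε₁ / 8) * e0 ≤ ε₁ / 4 := h1'.trans hCe
    calc (2 * C + ε₁ / 8) * n * e0 = (2 * C + ε₁ / 8) * e0 * n := by ring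
      _ ≤ ε₁ / 4 * n := mul_le_mul_of_nonneg_right h2 hn0
  have a2 : n ≤ (b + 1) * B := by
    calc n ≤ b * (B + 1) := hn
      _ = b * B + b := by ring
      _ ≤ b * B + B := by linarith
      _ = (b + 1) * B := by ring
  have a3 : (1 / 2 - ε₁ / 2) * n ≤ (1 / 2 - ε₁ / 2) * ((b + 1) * B) :=
    mul_le_mul_of_nonneg_left a2 (by linarith)
  have a4 : (8 * E + 4) * B * e0 ≤ (8 * E + 4) * B * 1 := by
    apply mul_le_mul_of_nonneg_left (by linarith)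
    positivity
  have a5 : j * h1 ≤ 4 * E * B :=
    calc j * h1 ≤ j * B := mul_le_mul_of_nonneg_left hh2 hj0
      _ ≤ 4 * E * B := mul_le_mul_of_nonneg_right hj hB0
  have a6 : 2 * (E - 1) * (1 - e0) * ((E - 8) * B) ≤ 4 * E * (E - 1) * h1 * (1 - e0) := by
    have h3 : 0 ≤ 2 * (E - 1) * (1 - e0) := by
      apply mul_nonneg <;> linarith
    calc 2 * (E - 1) * (1 - e0) * ((E - 8) * B) ≤ 2 * (E - 1) * (1 - e0) * (2 * E * h1) :=
          mul_le_mul_of_nonneg_left hh1 h3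
      _ = 4 * E * (E - 1) * h1 * (1 - e0) := by ring
  have a7 : 16 * E + 13 + 4 * E + (1 / 2 - ε₁ / 2) * (b + 1) ≤
      2 * (E - 1) * (1 - e0) * (E - 8) := by
    have q1 : 33 * E ≤ ε₁ * E * E := mul_le_mul_of_nonneg_right hεE (by linarith)
    have q2 : (E - 1) * (E - 8) * e0 ≤ E * E * (ε₁ / 8) := by
      apply mul_le_mul _ he1 he0.le (by positivity)
      nlinarith
    have q3 : b = 4 * (E * E) + 5 * E + 1 := by rw [hb]; ring
    have q4 : 2 * (E - 1) * (1 - e0) * (E - 8) = 2 * (E * E) - 18 * E + 16 -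
        2 * ((E - 1) * (E - 8) * e0) := by ring
    have q5 : (1 / 2 - ε₁ / 2) * (b + 1) = 2 * (E * E) + 5 / 2 * E + 1 -
        (2 * (ε₁ * E * E) + 5 / 2 * (ε₁ * E) + ε₁) := by rw [q3]; ring
    have q6 : E * E * (ε₁ / 8) = ε₁ * E * E / 8 := by ring
    rw [q4, q5]
    linarith
  have a8 : (16 * E + 13 + 4 * E + (1 / 2 - ε₁ / 2) * (b + 1)) * B ≤
      2 * (E - 1) * (1 - e0) * (E - 8) * B := mul_le_mul_of_nonneg_right a7 hB0
  have a9 : 2 * (E - 1) * (1 - e0) * (E - 8) * B = 2 * (E - 1) * (1 - e0) * ((E - 8) * B) := by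
    ring
  have a10 : (16 * E + 13 + 4 * E + (1 / 2 - ε₁ / 2) * (b + 1)) * B =
      (16 * E + 13) * B + 4 * E * B + (1 / 2 - ε₁ / 2) * ((b + 1) * B) := by ring
  have a11 : 3 * B + (2 * B * (4 * E + 1) + 2 * B + 1) + (8 * E + 4) * B * 1 + 1 <
      (16 * E + 13) * B := by
    have : (16 * E + 13) * B - (3 * B + (2 * B * (4 * E + 1) + 2 * B + 1) +
        (8 * E + 4) * B * 1 + 1) = 2 * B - 2 := by ring
    linarith
  have a12 : (1 / 2 - ε₁ / 2) * n = (1 / 2 - ε₁) * n + ε₁ / 4 * n + 2 * (ε₁ / 8 * n) := by ring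
  linarith

theorem pf_PARMM : S_PARMM := by
  intro C ε hε
  obtain ⟨ε₁, hε₁0, hε₁ε, hε₁4⟩ : ∃ ε₁ : ℝ, 0 < ε₁ ∧ ε₁ ≤ ε ∧ ε₁ ≤ 1 / 4 :=
    ⟨min ε (1 / 4), lt_min hε (by norm_num), min_le_left _ _, min_le_right _ _⟩
  have hε₁1 : ε₁ ≤ 1 := by linarith
  obtain ⟨r, hr⟩ : ∃ r : ℕ, C / (ε₁ / 8) + 1 ≤ r := exists_nat_ge _
  obtain ⟨r, hr1, hCr⟩ : ∃ r : ℕ, 1 ≤ r ∧ C ≤ ε₁ / 8 * r := by
    refine ⟨r + 1, by omega, ?_⟩
    have h1 : C / (ε₁ / 8) ≤ ((r + 1 : ℕ) : ℝ) := by push_cast; linarith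
    rw [div_le_iff₀ (by positivity)] at h1
    linarith
  -- the exponent `e0 = 2 ^ (-j)`
  obtain ⟨j, hj⟩ : ∃ j : ℕ, (2 * |C| + 2) * (2 : ℝ)⁻¹ ^ j ≤ ε₁ / 4 := by
    have h1 : Filter.Tendsto (fun j : ℕ => (2 * |C| + 2) * (2 : ℝ)⁻¹ ^ j) Filter.atTop
        (nhds ((2 * |C| + 2) * 0)) :=
      (tendsto_pow_atTop_nhds_zero_of_lt_one (by norm_num) (by norm_num)).const_mul _
    rw [mul_zero] at h1
    obtain ⟨j, hj⟩ := (h1.eventually_lt_const (show (0 : ℝ) < ε₁ / 4 by positivity)).exists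
    exact ⟨j, hj.le⟩
  obtain ⟨e0, he0⟩ : ∃ e0 : ℝ, e0 = (2 : ℝ)⁻¹ ^ j := ⟨_, rfl⟩
  rw [← he0] at hj
  have he0p : 0 < e0 := by rw [he0]; positivity
  have he0s : e0 ≤ ε₁ / 8 := by nlinarith [abs_nonneg C]
  obtain ⟨E0, hE0⟩ : ∃ E : ℕ, 33 / ε₁ ≤ E := exists_nat_ge _
  obtain ⟨E, hEdef⟩ : ∃ E : ℕ, E = E0 + 2 ^ (2 * r + 1) * (2 * r).factorial + j := ⟨_, rfl⟩
  have hεE : 33 ≤ ε₁ * E := by
    have h1 : (E0 : ℝ) ≤ E := by
      have : E0 ≤ E := by omega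
      exact_mod_cast this
    have h2 : 33 / ε₁ ≤ E := hE0.trans h1
    rw [div_le_iff₀ hε₁0] at h2
    linarith
  have hE33r : (33 : ℝ) ≤ E := by
    have : ε₁ * (E : ℝ) ≤ 1 * E := mul_le_mul_of_nonneg_right hε₁1 (Nat.cast_nonneg _)
    linarith
  have hE33 : 33 ≤ E := by exact_mod_cast hE33r
  have hjE : j ≤ E := by omega
  have hfac : 2 ^ (2 * r + 1) * (2 * r).factorial ≤ 2 ^ (4 * E) := by
    calc 2 ^ (2 * r + 1) * (2 * r).factorial ≤ E := by omega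
      _ ≤ 4 * E := by omega
      _ ≤ 2 ^ (4 * E) := (Nat.lt_two_pow_self (n := 4 * E)).le
  obtain ⟨b, hb⟩ : ∃ b : ℕ, b = (4 * E + 1) * (E + 1) := ⟨_, rfl⟩
  have hb1 : 1 ≤ b := by
    rw [hb]; exact Nat.one_le_iff_ne_zero.2 (by positivity)
  have hbr : (b : ℝ) = (4 * E + 1) * (E + 1) := by rw [hb]; push_cast; ring
  obtain ⟨K, hK⟩ : ∃ K : ℕ, K = 4 * E * 2 ^ (b * kk E) := ⟨_, rfl⟩
  have hE0' : (0 : ℝ) < E := by linarith
  have he04 : 1 ≤ e0 * 2 ^ (4 * E) := by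
    have h1 : e0 * 2 ^ j = 1 := by
      rw [he0, ← mul_pow]
      norm_num
    have h2 : (2 : ℝ) ^ j ≤ 2 ^ (4 * E) := pow_le_pow_right₀ (by norm_num) (by omega)
    calc (1 : ℝ) = e0 * 2 ^ j := h1.symm
      _ ≤ e0 * 2 ^ (4 * E) := mul_le_mul_of_nonneg_left h2 he0p.le
  refine ⟨E, E, r, K, ε₁ / 8, e0, by omega, by omega, hr1, hfac, he0p, by linarith, he04, ?_,
    by positivity, ?_⟩
  · rw [div_le_iff₀ hE0']
    have : ε₁ * (E : ℝ) ≤ ε * E := mul_le_mul_of_nonneg_right hε₁ε hE0'.le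
    linarith
  refine ⟨b * (171 * K ^ 2 + b + 3 + 2 * kk E), fun n hn => ?_⟩
  obtain ⟨B, hB⟩ : ∃ B : ℕ, B = n / b := ⟨_, rfl⟩
  have hBn : B * b ≤ n := by rw [hB]; exact Nat.div_mul_le_self n b
  have hBge : 171 * K ^ 2 + b + 3 + 2 * kk E ≤ B := by
    rw [hB, Nat.le_div_iff_mul_le (by omega), mul_comm]
    exact hn
  have hBn' : B ≤ n := le_trans (Nat.le_mul_of_pos_right _ (by omega)) hBn
  have hnB : n < b * (B + 1) := by
    rw [hB]
    exact Nat.lt_mul_div_succ n hb1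
  refine ⟨B, by omega, by rw [← hb]; exact hBn, ?_, ?_⟩
  · rw [← hb]
    calc 4 * E * B * 2 ^ (b * kk E) = K * B := by rw [hK]; ring
      _ ≤ K * n := Nat.mul_le_mul_left _ hBn'
  intro N Y de S T W hN hY hde hS hT hW h
  rw [← hb] at h
  -- reals
  have hnr : (n : ℝ) ≤ b * (B + 1) := by exact_mod_cast hnB.le
  have hbB : (b : ℝ) ≤ B := by
    have : b ≤ B := by omega
    exact_mod_cast this
  have hr1r : (1 : ℝ) ≤ r := by exact_mod_cast hr1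
  have hB2 : (2 : ℝ) ≤ B := by
    have : 2 ≤ B := by omega
    exact_mod_cast this
  -- the constant
  obtain ⟨PP, hPP⟩ : ∃ PP : ℝ, PP = 4 * (E : ℝ) * B * 2 ^ (b * kk E) := ⟨_, rfl⟩
  have hPP0 : 0 ≤ PP := by rw [hPP]; positivity
  have hcon : 171 * PP ^ 2 ≤ 2 ^ (3 * B) := by
    have c1 : 171 * K ^ 2 ≤ 2 ^ B := by
      have := (Nat.lt_two_pow_self (n := B)).le
      omega
    have c2 : B ^ 2 ≤ 2 ^ (2 * B) := by
      have := (Nat.lt_two_pow_self (n := B)).le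
      calc B ^ 2 ≤ (2 ^ B) ^ 2 := Nat.pow_le_pow_left this 2
        _ = 2 ^ (2 * B) := by rw [← pow_mul, mul_comm]
    have c3 : 171 * (4 * E * B * 2 ^ (b * kk E)) ^ 2 ≤ 2 ^ (3 * B) := by
      calc 171 * (4 * E * B * 2 ^ (b * kk E)) ^ 2 = (171 * K ^ 2) * B ^ 2 := by rw [hK]; ring
        _ ≤ 2 ^ B * 2 ^ (2 * B) := Nat.mul_le_mul c1 c2
        _ = 2 ^ (3 * B) := by rw [← pow_add]; congr 1; ring
    rw [hPP]
    exact_mod_cast c3
  have hPP2 : 0 ≤ PP ^ 2 := sq_nonneg _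
  have hcon4 : 4 * PP ^ 2 ≤ 2 ^ (3 * B) := by linarith
  have hcon64 : 64 * PP ^ 2 ≤ 2 ^ (3 * B) := by linarith
  rw [← hPP] at h
  obtain ⟨g, hg⟩ : ∃ g : ℝ, g = (2 : ℝ) ^ (-(ε₁ / 8 * n)) := ⟨_, rfl⟩
  have hg0 : 0 < g := by rw [hg]; positivity
  rw [← hg] at hde ⊢
  rw [hde] at h
  have d1 : E * (B / E) ≤ B := Nat.mul_div_le B E
  rcases h with h | h
  · -- the first alternative is impossible if `N` is large
    by_contra hNY
    rw [not_le] at hNY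
    obtain ⟨h1, hh1⟩ : ∃ h1 : ℕ, h1 = (B - 8 * (B / E)) / 2 + 1 := ⟨_, rfl⟩
    rw [← hh1] at h
    have hh1B : h1 ≤ B := by omega
    have hh1E : (E - 8) * B ≤ 2 * E * h1 := by
      have d2 : (E - 8) * B ≤ E * (B - 8 * (B / E)) := by
        rw [Nat.mul_sub, Nat.sub_mul]
        have : E * (8 * (B / E)) = 8 * (E * (B / E)) := by ring
        rw [this]
        omega
      calc (E - 8) * B ≤ E * (B - 8 * (B / E)) := d2
        _ ≤ E * (2 * h1) := Nat.mul_le_mul_left _ (by omega)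
        _ = 2 * E * h1 := by ring
    have hh1Er : ((E : ℝ) - 8) * B ≤ 2 * E * h1 := by
      have : (((E - 8) * B : ℕ) : ℝ) ≤ ((2 * E * h1 : ℕ) : ℝ) := by exact_mod_cast hh1E
      rw [Nat.cast_mul, Nat.cast_sub (by omega : 8 ≤ E)] at this
      exact_mod_cast this
    have hexp := expoM (E : ℝ) B b n ε₁ C e0 j h1 (by linarith) hεE hε₁0 hε₁4 hB2 hbB hbr
      (Nat.cast_nonneg _) hnr he0p hj (Nat.cast_nonneg _)
      (by have : (j : ℝ) ≤ E := by exact_mod_cast hjE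
          linarith)
      hh1Er (by exact_mod_cast hh1B)
    -- the base of the power with the exponent `e0`
    have hW0 : 0 < W := by rw [hW]; positivity
    have hbase : W / (N / (Y * W)) ≤ (2 : ℝ) ^ ((2 * C + ε₁ / 8) * n) := by
      have e1 : W / (N / (Y * W)) = W ^ 2 * (Y / N) := by field_simp
      have e2 : Y / N ≤ (2 : ℝ) ^ (ε₁ / 8 * n) := by
        rw [div_le_iff₀ hN]
        have e3 : (2 : ℝ) ^ (ε₁ / 8 * n) * g = 1 := by
          rw [hg, ← Real.rpow_add two_pos, add_neg_cancel, Real.rpow_zero]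
        calc Y = (2 : ℝ) ^ (ε₁ / 8 * n) * (g * Y) := by rw [← mul_assoc, e3, one_mul]
          _ ≤ (2 : ℝ) ^ (ε₁ / 8 * n) * N := mul_le_mul_of_nonneg_left hNY.le (by positivity)
      have e4 : W ^ 2 * (2 : ℝ) ^ (ε₁ / 8 * n) = (2 : ℝ) ^ ((2 * C + ε₁ / 8) * n) := by
        rw [hW, ← Real.rpow_natCast, ← Real.rpow_mul (by norm_num), ← Real.rpow_add two_pos]
        congr 1
        push_cast
        ring
      rw [e1, ← e4]
      exact mul_le_mul_of_nonneg_left e2 (by positivity)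
    have hpow : (W / (N / (Y * W))) ^ e0 ≤ (2 : ℝ) ^ ((2 * C + ε₁ / 8) * n * e0) := by
      rw [Real.rpow_mul (by norm_num)]
      exact Real.rpow_le_rpow (by positivity) hbase he0p.le
    have hT1 : T + 1 ≤ (2 : ℝ) ^ (1 + (1 / 2 - ε₁) * n) := by
      have e1 : T ≤ (2 : ℝ) ^ ((1 / 2 - ε₁) * n) := by
        rw [hT]
        apply Real.rpow_le_rpow_of_exponent_le one_le_two
        exact mul_le_mul_of_nonneg_right (by linarith) (Nat.cast_nonneg _)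
      have e2 : (1 : ℝ) ≤ (2 : ℝ) ^ ((1 / 2 - ε₁) * n) := by
        apply Real.one_le_rpow one_le_two
        exact mul_nonneg (by linarith) (Nat.cast_nonneg _)
      rw [Real.rpow_add two_pos, Real.rpow_one]
      linarith
    have hT0 : 0 ≤ T + 1 := by
      have : 0 < T := by rw [hT]; positivity
      linarith
    have hL : g ^ 2 * (e0 ^ h1 * (2 : ℝ) ^ (((4 * E * (E - 1) * h1 : ℕ) : ℝ) * (1 - e0))) =
        (2 : ℝ) ^ (-(2 * (ε₁ / 8 * n)) - j * h1 + 4 * E * (E - 1) * h1 * (1 - e0)) := by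
      have e1 : g ^ 2 = (2 : ℝ) ^ (-(2 * (ε₁ / 8 * n))) := by
        rw [hg, ← Real.rpow_natCast, ← Real.rpow_mul (by norm_num)]
        congr 1
        push_cast
        ring
      have e2 : e0 ^ h1 = (2 : ℝ) ^ (-(j * h1 : ℝ)) := by
        rw [he0, ← pow_mul, inv_pow, Real.rpow_neg (by norm_num), ← Real.rpow_natCast]
        push_cast
        rfl
      have e3 : ((4 * E * (E - 1) * h1 : ℕ) : ℝ) = 4 * E * (E - 1) * h1 := by
        rw [Nat.cast_mul, Nat.cast_mul, Nat.cast_sub (by omega : 1 ≤ E)]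
        push_cast
        ring
      rw [e1, e2, e3, ← Real.rpow_add two_pos, ← Real.rpow_add two_pos]
      congr 1
      ring
    rw [hL] at h
    have hR : 64 * PP ^ 2 * 2 ^ (2 * B * (4 * E + 1) + 2 * B + 1) *
        (2 : ℝ) ^ ((((8 * E + 4) * B : ℕ) : ℝ) * e0) * (W / (N / (Y * W))) ^ e0 * (T + 1) ≤
        (2 : ℝ) ^ (3 * (B : ℝ) + (2 * B * (4 * E + 1) + 2 * B + 1) + (8 * E + 4) * B * e0 +
          (2 * C + ε₁ / 8) * n * e0 + (1 + (1 / 2 - ε₁) * n)) := by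
      have q0 : (2 : ℝ) ^ (3 * B) = (2 : ℝ) ^ (3 * (B : ℝ)) := by
        rw [← Real.rpow_natCast]; congr 1; push_cast; ring
      have q1 : (2 : ℝ) ^ (2 * B * (4 * E + 1) + 2 * B + 1) =
          (2 : ℝ) ^ (2 * (B : ℝ) * (4 * E + 1) + 2 * B + 1) := by
        rw [← Real.rpow_natCast]; congr 1; push_cast; ring
      have q2 : (((8 * E + 4) * B : ℕ) : ℝ) = (8 * E + 4) * B := by push_cast; ring
      rw [q2]
      calc 64 * PP ^ 2 * 2 ^ (2 * B * (4 * E + 1) + 2 * B + 1) *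
            (2 : ℝ) ^ ((8 * (E : ℝ) + 4) * B * e0) * (W / (N / (Y * W))) ^ e0 * (T + 1)
          ≤ (2 : ℝ) ^ (3 * B) * 2 ^ (2 * B * (4 * E + 1) + 2 * B + 1) *
            (2 : ℝ) ^ ((8 * (E : ℝ) + 4) * B * e0) * (2 : ℝ) ^ ((2 * C + ε₁ / 8) * n * e0) *
            (2 : ℝ) ^ (1 + (1 / 2 - ε₁) * n) := by gcongr
        _ = _ := by
          rw [q0, q1, ← Real.rpow_add two_pos, ← Real.rpow_add two_pos,
            ← Real.rpow_add two_pos, ← Real.rpow_add two_pos]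
    have hfin := h.trans hR
    rw [Real.rpow_le_rpow_left_iff one_lt_two] at hfin
    linarith
  · -- the second alternative
    obtain ⟨e1, he1⟩ : ∃ e1 : ℕ, e1 = 4 * E * r * (E - 3) * (B - 8 * (B / E)) := ⟨_, rfl⟩
    rw [← he1, hS] at h
    have he1' : 4 * (r : ℝ) * ((E : ℝ) - 3) * (((E : ℝ) - 8) * B) ≤ e1 := by
      have d2 : (E - 8) * B ≤ E * (B - 8 * (B / E)) := by
        rw [Nat.mul_sub, Nat.sub_mul]
        have : E * (8 * (B / E)) = 8 * (E * (B / E)) := by ring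
        rw [this]
        omega
      have d3 : 4 * r * (E - 3) * ((E - 8) * B) ≤ e1 := by
        rw [he1]
        calc 4 * r * (E - 3) * ((E - 8) * B) ≤ 4 * r * (E - 3) * (E * (B - 8 * (B / E))) :=
              Nat.mul_le_mul_left _ d2
          _ = 4 * E * r * (E - 3) * (B - 8 * (B / E)) := by ring
      have d4 : ((4 * r * (E - 3) * ((E - 8) * B) : ℕ) : ℝ) ≤ (e1 : ℝ) := by exact_mod_cast d3
      rw [Nat.cast_mul, Nat.cast_mul, Nat.cast_mul, Nat.cast_mul,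
        Nat.cast_sub (by omega : 3 ≤ E), Nat.cast_sub (by omega : 8 ≤ E)] at d4
      exact_mod_cast d4
    have hexp := Pool.Agent.H33.AV.expoA (e1 : ℝ) E E B b n ε ε₁ C r (ε₁ / 8) (by linarith)
      (by linarith) hεE hεE hε₁0 hε₁ε hε₁1 (Nat.cast_nonneg _) hbB hbr (Nat.cast_nonneg _) hnr
      hCr hr1r rfl he1'
    have hD : 4 * PP ^ 2 * 2 ^ (2 * r * B * (8 * E + 3) + B) * (2 : ℝ) ^ (C * n) *
        (171 * PP ^ 2 * (2 : ℝ) ^ ((1 - ε) * n)) ^ r ≤ g ^ (2 * r) * 2 ^ e1 * g := by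
      have r1 : (2 : ℝ) ^ (3 * B) * 2 ^ (2 * r * B * (8 * E + 3) + B) * (2 : ℝ) ^ (C * n) *
          ((2 : ℝ) ^ (3 * B) * (2 : ℝ) ^ ((1 - ε) * n)) ^ r =
          (2 : ℝ) ^ (3 * (B : ℝ) + (2 * r * B * (8 * E + 3) + B) + C * n +
            r * (3 * B + (1 - ε) * n)) := by
        have q0 : (2 : ℝ) ^ (3 * B) = (2 : ℝ) ^ (3 * (B : ℝ)) := by
          rw [← Real.rpow_natCast]; congr 1; push_cast; ring
        have q1 : (2 : ℝ) ^ (2 * r * B * (8 * E + 3) + B) =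
            (2 : ℝ) ^ (2 * (r : ℝ) * B * (8 * E + 3) + B) := by
          rw [← Real.rpow_natCast]; congr 1; push_cast; ring
        rw [q0, q1, ← Real.rpow_add two_pos (3 * (B : ℝ)) ((1 - ε) * n), ← Real.rpow_natCast,
          ← Real.rpow_mul (by norm_num),
          ← Real.rpow_add two_pos, ← Real.rpow_add two_pos, ← Real.rpow_add two_pos]
        congr 1
        ring
      have r2 : g ^ (2 * r) * 2 ^ e1 * g =
          (2 : ℝ) ^ ((e1 : ℝ) - (2 * r + 1) * (ε₁ / 8 * n)) := by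
        have q2 : g ^ (2 * r) * 2 ^ e1 * g = 2 ^ e1 * g ^ (2 * r + 1) := by ring
        rw [q2, hg, ← Real.rpow_natCast, ← Real.rpow_natCast, ← Real.rpow_mul (by norm_num),
          ← Real.rpow_add two_pos]
        congr 1
        push_cast
        ring
      rw [r2]
      calc 4 * PP ^ 2 * 2 ^ (2 * r * B * (8 * E + 3) + B) * (2 : ℝ) ^ (C * n) *
            (171 * PP ^ 2 * (2 : ℝ) ^ ((1 - ε) * n)) ^ r ≤
          (2 : ℝ) ^ (3 * B) * 2 ^ (2 * r * B * (8 * E + 3) + B) * (2 : ℝ) ^ (C * n) *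
            ((2 : ℝ) ^ (3 * B) * (2 : ℝ) ^ ((1 - ε) * n)) ^ r := by
            gcongr
        _ = (2 : ℝ) ^ (3 * (B : ℝ) + (2 * r * B * (8 * E + 3) + B) + C * n +
            r * (3 * B + (1 - ε) * n)) := r1
        _ ≤ (2 : ℝ) ^ ((e1 : ℝ) - (2 * r + 1) * (ε₁ / 8 * n)) :=
            Real.rpow_le_rpow_of_exponent_le one_le_two hexp
    rw [hW] at h
    have hfin : g ^ (2 * r) * 2 ^ e1 * N ≤ g ^ (2 * r) * 2 ^ e1 * (g * Y) := by
      calc g ^ (2 * r) * 2 ^ e1 * N = g ^ (2 * r) * N * 2 ^ e1 := by ring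
        _ ≤ 4 * PP ^ 2 * 2 ^ (2 * r * B * (8 * E + 3) + B) * (2 : ℝ) ^ (C * n) *
            (171 * PP ^ 2 * (2 : ℝ) ^ ((1 - ε) * n)) ^ r * Y := h
        _ ≤ (g ^ (2 * r) * 2 ^ e1 * g) * Y := mul_le_mul_of_nonneg_right hD hY.le
        _ = g ^ (2 * r) * 2 ^ e1 * (g * Y) := by ring
    exact le_of_mul_le_mul_left hfin (by positivity)

end Pool.Agent.H36.SV
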